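import Pool.Agent.H325.EN.SG
import Pool.Agent.H349.EN.HP
import Pool.Agent.H962.EN.Tor
import Pool.Agent.H747.EN.Eng
import Pool.Agent.H105.EN.Com
import Pool.Agent.H767.EN.Asm
import Pool.Agent.H603.EN.Fin

/-!
# Nilpotent groups generated by `d` left 3-Engel elements: the class is bounded up to 2-torsion

An element `a` of a group is left 3-Engel if `[x, a, a, a] = 1` for all `x`. There are functions `f`, `s`
such that for every nilpotent group `G` generated by `d` left 3-Engel elements the factors of the lower
central series of `G` from the index `f d` on have exponent dividing `2 ^ s d`, and the class of `G` is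
at most `f d` if `G` has no element of order two.

The proof: conjugates of a left 3-Engel element generate a subgroup in which they act as sandwiches on
the homomorphisms from the terms of the lower central series to groups without elements of order two;
by the argument of Kostrikin and Zelmanov (in any characteristic, with a uniform bound) subgroups
generated by `m` conjugates have bounded class; then the Hirsch–Plotkin theorem in a product of
counterexamples. (Helpers 325, 349, 962, 747, 105, 767, 603.)
-/

set_option autoImplicit false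

namespace Pool.Agent.Results.MP_0fdb00_al.NoInvolutions

open Pool.Agent.H325.EN

/-- `a` is a left 3-Engel element: `[x, a, a, a] = 1` for all `x`, where `[y, a] = y⁻¹ a⁻¹ y a`. -/
def LeftThreeEngel {G : Type} [Group G] (a : G) : Prop :=
  ∀ x : G, (fun y : G => y⁻¹ * a⁻¹ * y * a)^[3] x = 1

/-- `G` has no element of order two. -/
def NoInvolution (G : Type) [Group G] : Prop := ∀ x : G, x ^ 2 = 1 → x = 1

/-- There are functions `f` and `s` such that, for all `d`:
* if `G` is a nilpotent group generated by `d` left 3-Engel elements then the factors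
  `γ_{k+1}(G)/γ_{k+2}(G)`, `k ≥ f d`, of the lower central series have exponent dividing `2 ^ s d`;
* if `G` is a nilpotent group without elements of order two which is generated by `d` left 3-Engel
  elements then the class of `G` is at most `f d`;
* if `G` is residually a nilpotent group without elements of order two then any `d` left 3-Engel
  elements of `G` generate a nilpotent subgroup of class at most `f d`. -/
theorem result : ∃ f s : ℕ → ℕ,
    (∀ (d : ℕ) (G : Type) [Group G] (g : Fin d → G), Group.IsNilpotent G →
      Subgroup.closure (Set.range g) = ⊤ → (∀ i, LeftThreeEngel (g i)) →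
        ∀ k, f d ≤ k → ∀ x ∈ Subgroup.lowerCentralSeries (⊤ : Subgroup G) k,
          x ^ 2 ^ s d ∈ Subgroup.lowerCentralSeries (⊤ : Subgroup G) (k + 1)) ∧
    (∀ (d : ℕ) (G : Type) [Group G] (g : Fin d → G), Group.IsNilpotent G → NoInvolution G →
      Subgroup.closure (Set.range g) = ⊤ → (∀ i, LeftThreeEngel (g i)) →
        Subgroup.upperCentralSeries G (f d) = ⊤) ∧
    (∀ (d : ℕ) (G : Type) [Group G] (g : Fin d → G),
      (∀ x : G, x ≠ 1 → ∃ (N : Subgroup G) (_ : N.Normal), x ∉ N ∧ Group.IsNilpotent (G ⧸ N) ∧
        NoInvolution (G ⧸ N)) →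
      (∀ i, LeftThreeEngel (g i)) →
        (Subgroup.closure (Set.range g)).lowerCentralSeries (f d) = ⊥) := by
  have hCOM : S_COM.{0} := Pool.Agent.H105.EN.com
  have hMAIN : S_MAIN.{0} := Pool.Agent.H767.EN.asm (sg hCOM) Pool.Agent.H349.EN.hp
    Pool.Agent.H747.EN.eng
  obtain ⟨f, s, h⟩ := Pool.Agent.H603.EN.fin hMAIN Pool.Agent.H962.EN.tor
  refine ⟨f, s, ?_, ?_, ?_⟩
  · intro d G _ g hn hg he
    exact (h d G g hn hg he).1
  · intro d G _ g hn h2 hg he
    exact (h d G g hn hg he).2 h2
  · intro d G _ g hres he
    rw [eq_bot_iff]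
    intro x hx
    rw [Subgroup.mem_bot]
    by_contra hne
    obtain ⟨N, hN, hxN, hnil, hno⟩ := hres x hne
    set φ := QuotientGroup.mk' N with hφ
    set H := Subgroup.closure (Set.range g) with hH
    -- the image of `H`
    set K : Subgroup (G ⧸ N) := H.map φ with hK
    have hgK : ∀ i, φ (g i) ∈ K := fun i =>
      Subgroup.mem_map_of_mem φ (Subgroup.subset_closure ⟨i, rfl⟩)
    have hgen : Subgroup.closure (Set.range fun i => (⟨φ (g i), hgK i⟩ : K)) = ⊤ := by
      have e1 : Set.range (fun i => (⟨φ (g i), hgK i⟩ : K)) =
          ((↑) : K → G ⧸ N) ⁻¹' (Set.range fun i => φ (g i)) := by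
        ext y
        constructor
        · rintro ⟨i, rfl⟩; exact ⟨i, rfl⟩
        · rintro ⟨i, hi⟩; exact ⟨i, Subtype.ext hi⟩
      have e2 : K = Subgroup.closure (Set.range fun i => φ (g i)) := by
        rw [hK, hH, MonoidHom.map_closure, ← Set.range_comp]
        rfl
      rw [e1]
      have e3 := Subgroup.closure_closure_coe_preimage (k := Set.range fun i => φ (g i))
      rw [eq_top_iff]
      rintro ⟨y, hy⟩ -
      have hy' : y ∈ Subgroup.closure (Set.range fun i => φ (g i)) := e2 ▸ hy
      have key : K.map (MonoidHom.id _) = K := Subgroup.map_id K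
      have h3 : Subgroup.closure (Set.range fun i => φ (g i)) ≤
          (Subgroup.closure (((↑) : K → G ⧸ N) ⁻¹' (Set.range fun i => φ (g i)))).map K.subtype := by
        rw [Subgroup.closure_le]
        rintro _ ⟨i, rfl⟩
        exact ⟨⟨φ (g i), hgK i⟩, Subgroup.subset_closure ⟨i, rfl⟩, rfl⟩
      obtain ⟨z, hz, hzy⟩ := h3 hy'
      have : z = ⟨y, hy⟩ := Subtype.ext hzy
      rw [← this]
      exact hz
    have heK : ∀ i, LeftThreeEngel (⟨φ (g i), hgK i⟩ : K) := by
      intro i
      have h1 : LeftThreeEngel (φ (g i)) :=
        Pool.Agent.H603.EN.L3_map φ (QuotientGroup.mk'_surjective N) (he i)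
      intro y
      apply Subtype.ext
      have h4 : Function.Semiconj K.subtype
          (fun z : K => z⁻¹ * (⟨φ (g i), hgK i⟩ : K)⁻¹ * z * ⟨φ (g i), hgK i⟩)
          (fun z : G ⧸ N => z⁻¹ * (φ (g i))⁻¹ * z * φ (g i)) := by
        intro z; rfl
      have h5 := (h4.iterate_right 3) y
      rw [Subgroup.coe_one]
      exact h5.trans (h1 _)
    have hnoK : NoInvolution K := by
      intro y hy
      apply Subtype.ext
      exact hno y.1 (by have := congrArg Subtype.val hy; simpa using this)
    have hnil' := hnil
    have h6 := (h d K _ inferInstance hgen heK).2 hnoK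
    have h7 : (⊤ : Subgroup K).lowerCentralSeries (f d) = ⊥ :=
      Subgroup.lowerCentralSeries_eq_bot_iff_upperCentralSeries_eq_top.2 h6
    have h8 : φ x ∈ K.lowerCentralSeries (f d) := by
      rw [hK, ← Subgroup.map_lowerCentralSeries]
      exact Subgroup.mem_map_of_mem φ hx
    rw [← Subgroup.top_subtype_lowerCentralSeries, h7, Subgroup.map_bot, Subgroup.mem_bot] at h8
    exact hxN ((QuotientGroup.eq_one_iff x).1 h8)

end Pool.Agent.Results.MP_0fdb00_al.NoInvolutions
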